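import Pool.Agent.H49.SDP.Targets

/-! # MP_c62aed_lc, SDP relaxations for k-SAT: the large width case from the core (helper63) -/

namespace Pool.Agent.H63.SDP

open Finset Matrix Pool.Agent.H49.SDP
open Pool.Agent.H1.LP (Clause viol Loc Sys Agree supp ip kk)

theorem pf_FINS : S_FINS := by
  classical
  intro hC hP ε hε
  obtain ⟨E, L, K, γ, hE, hL, hEε, hγ, n₀, hn⟩ := hP ε hε
  refine ⟨(4 * E + 1) * (L + 1) * kk E, K, γ, hγ, n₀, fun n hn0 => ?_⟩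
  obtain ⟨B, hkB, hBn, hKn, hpar⟩ := hn n hn0
  obtain ⟨Y, m, phi, hY, h1, h2⟩ := hC E L n B hE hL hkB hBn
  refine ⟨Y, m, phi, hY, ?_, ?_⟩
  · intro a
    obtain ⟨g1, g2, g3, g4⟩ := h1 a
    refine ⟨g1, g2.trans hKn, g3, fun x => le_trans ?_ (g4 x)⟩
    gcongr
  · intro M P hW
    have h3 := h2 M P (univ.filter (fun a => SRefuted P (phi a) ((2 : ℝ) ^ (-(γ * n)))))
      ((2 : ℝ) ^ (-(γ * n))) (by positivity) (fun a ha => (mem_filter.1 ha).2)
    refine hpar (∑ j, (((P j).ord : ℝ) + 1) ^ 2) _ Y (Nat.cast_nonneg Y) hW ?_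
    exact h3

end Pool.Agent.H63.SDP
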